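import Mathlib

namespace Pool.Agent.Results.MP_19d06a_co.Unbounded

open Finset

/-- The generalized progression `P(a, N)`: values of words in the letters `a i`, `(a i)⁻¹`
in which, for each `i`, these two letters occur at most `N i` times in total. -/
def Prog {G : Type} [Group G] {k : ℕ} (a : Fin k → G) (N : Fin k → ℕ) : Set G :=
  {g | ∃ w : List (Fin k × Bool), (∀ i, w.countP (fun x => x.1 = i) ≤ N i) ∧
    g = (w.map fun x => if x.2 then a x.1 else (a x.1)⁻¹).prod}

/-- The left translates of `A` shatter `Y`. -/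
def Shatters {G : Type} [Group G] (A : Set G) (Y : Finset G) : Prop :=
  ∀ B ⊆ Y, ∃ g : G, (B : Set G) = ((fun x => g * x) '' A) ∩ (Y : Set G)

theorem mem_prog {G : Type} [CommGroup G] {k : ℕ} (a : Fin k → G) (N : Fin k → ℕ) (g : G) :
    g ∈ Prog a N ↔ ∃ n : Fin k → ℤ, (∀ i, |n i| ≤ N i) ∧ g = ∏ i, a i ^ n i := by
  constructor
  · rintro ⟨w, hw, rfl⟩
    suffices h : ∃ n : Fin k → ℤ, (∀ i, |n i| ≤ w.countP (fun x => x.1 = i)) ∧
        (w.map fun x => if x.2 then a x.1 else (a x.1)⁻¹).prod = ∏ i, a i ^ n i by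
      obtain ⟨n, h1, h2⟩ := h
      exact ⟨n, fun i => (h1 i).trans (by exact_mod_cast hw i), h2⟩
    clear hw
    induction w with
    | nil => exact ⟨0, by simp, by simp⟩
    | cons x w ih =>
      obtain ⟨n, h1, h2⟩ := ih
      refine ⟨Pi.single x.1 (if x.2 then 1 else -1) + n, fun i => ?_, ?_⟩
      · have := h1 i
        rw [List.countP_cons, Pi.add_apply, Pi.single_apply]
        rw [abs_le] at this ⊢
        by_cases h : i = x.1
        · subst h
          simp only [if_true, decide_true]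
          split_ifs <;> push_cast <;> omega
        · have h' : ¬ x.1 = i := fun e => h e.symm
          simp only [h, h', if_false, decide_false]
          simpa using this
      · rw [List.map_cons, List.prod_cons, h2]
        simp only [Pi.add_apply, zpow_add, prod_mul_distrib]
        congr 1
        rw [prod_eq_single x.1]
        · cases x.2 <;> simp
        · intro j _ hj; simp [Pi.single_eq_of_ne hj]
        · simp
  · rintro ⟨n, hn, rfl⟩
    refine ⟨(List.finRange k).flatMap fun i => List.replicate (n i).natAbs (i, decide (0 ≤ n i)),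
      fun i => ?_, ?_⟩
    · rw [List.countP_flatMap, ← List.ofFn_eq_map, List.sum_ofFn, sum_eq_single i]
      · simp only [Function.comp, List.countP_replicate, decide_true, if_true]
        have := hn i
        rw [Int.abs_eq_natAbs] at this
        exact_mod_cast this
      · intro j _ hj; simp [List.countP_replicate, hj]
      · simp
    · rw [List.map_flatMap, List.flatMap_def, List.prod_flatten, List.map_map,
        ← List.ofFn_eq_map, List.prod_ofFn]
      refine prod_congr rfl fun i _ => ?_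
      simp only [Function.comp, List.map_replicate, List.prod_replicate, decide_eq_true_eq]
      split_ifs with h
      · rw [← zpow_natCast, Int.natAbs_of_nonneg h]
      · rw [inv_pow, ← zpow_natCast, ← zpow_neg, Int.ofNat_natAbs_of_nonpos (by omega), neg_neg]

def F : ℕ → ℤ
  | 0 => 1
  | 1 => 8
  | j + 2 => 8 * F (j + 1) + F j

theorem F_pos : ∀ j, 0 < F j
  | 0 => by simp [F]
  | 1 => by simp [F]
  | j + 2 => by have := F_pos (j + 1); have := F_pos j; simp only [F]; omega

theorem F_ge : ∀ j, 8 * F j ≤ F (j + 1)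
  | 0 => by simp [F]
  | j + 1 => by have := F_pos j; simp only [F]; omega

theorem F_mono : StrictMono F := strictMono_nat_of_lt_succ fun j => by
  have := F_pos j; have := F_ge j; omega

theorem F_sum (m : ℕ) : ∑ j ∈ range m, 4 * F j ≤ F m := by
  induction m with
  | zero => simp [F]
  | succ m ih => rw [sum_range_succ]; have := F_pos m; have := F_ge m; omega

def w (n i : ℕ) : ℤ × ℤ := (F i, (-1) ^ i * F (n - i))

def L (n : ℕ) : AddSubgroup (ℤ × ℤ) := (Submodule.span ℤ {w n 0, w n 1}).toAddSubgroup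

theorem mem_L {n i : ℕ} (h : i < n) (v : ℤ × ℤ) :
    v ∈ L n ↔ ∃ a b : ℤ, a • w n i + b • w n (i + 1) = v := by
  induction i with
  | zero => exact Submodule.mem_span_pair
  | succ i ih =>
    rw [ih (by omega)]
    have e : w n (i + 1 + 1) = (8:ℤ) • w n (i + 1) + w n i := by
      obtain ⟨m, rfl⟩ : ∃ m, n = i + 2 + m := ⟨n - (i + 2), by omega⟩
      simp only [w, show i + 2 + m - (i + 1 + 1) = m by omega,
        show i + 2 + m - (i + 1) = m + 1 by omega, show i + 2 + m - i = m + 2 by omega, F]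
      ext
      · simp
      · simp; ring
    rw [e]
    constructor
    · rintro ⟨a, b, rfl⟩; exact ⟨b - 8 * a, a, by module⟩
    · rintro ⟨a, b, rfl⟩; exact ⟨b, a + 8 * b, by module⟩

theorem out {x X y Y s s' t t' a b : ℤ} (hx : 0 < x) (hX : 8 * x ≤ X) (hy : 0 < y)
    (hY : 8 * y ≤ Y) (h1 : 0 ≤ s) (h2 : s ≤ x) (h3 : 0 ≤ s') (h4 : s' ≤ x) (h5 : |t| ≤ Y)
    (h6 : |t'| ≤ Y) (e1 : a * x + b * X = s + 4 * x - s') (e2 : |a * Y - b * y| = |t - t'|) :
    False := by
  have h7 : |a * Y - b * y| ≤ 2 * Y := by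
    rw [e2]; have := abs_sub t t'; omega
  rw [abs_le] at h7
  rcases lt_trichotomy b 0 with hb | rfl | hb
  · have : 3 ≤ a := by nlinarith
    nlinarith
  · have : 3 ≤ a := by nlinarith
    nlinarith
  · have : a ≤ -3 := by nlinarith
    nlinarith

theorem key (n : ℕ) (S : Finset ℕ) : ∃ γ : ℤ × ℤ, ∀ i < n,
    (i ∈ S ↔ ∃ s t : ℤ, 0 ≤ s ∧ s ≤ F i ∧ |t| ≤ F (n - i) ∧ γ - (s, t) ∈ L n) := by
  classical
  let c : ℕ → ℤ := fun j => if j ∈ S then 0 else 4
  have hc : ∀ j, 0 ≤ c j ∧ c j ≤ 4 := fun j => by simp only [c]; split_ifs <;> omega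
  refine ⟨(∑ j ∈ range n, c j * F j, 0), fun i hi => ?_⟩
  let s0 := ∑ j ∈ range i, c j * F j
  let t0 := -∑ j ∈ Ico (i + 1) n, c j * ((-1) ^ j * F (n - j))
  have h1 : 0 ≤ s0 := sum_nonneg fun j _ => mul_nonneg (hc j).1 (F_pos j).le
  have h2 : s0 ≤ F i := (sum_le_sum fun j _ =>
    mul_le_mul_of_nonneg_right (hc j).2 (F_pos j).le).trans (F_sum i)
  have h3 : |t0| ≤ F (n - i) := by
    rw [abs_neg]
    refine (abs_sum_le_sum_abs _ _).trans (le_trans ?_ (F_sum (n - i)))
    have : ∑ j ∈ Ico (i + 1) n, 4 * F (n - j) ≤ ∑ j ∈ range (n - i), 4 * F j := by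
      rw [sum_Ico_reflect (fun j => 4 * F j) (i + 1) (by omega : n ≤ n + 1)]
      refine sum_le_sum_of_subset_of_nonneg (fun j hj => ?_) fun j _ _ => by
        have := F_pos j; omega
      rw [mem_Ico] at hj
      exact mem_range.2 (by omega)
    refine le_trans (sum_le_sum fun j _ => ?_) this
    rw [abs_mul, abs_mul, abs_pow, abs_neg, abs_one, one_pow, one_mul, abs_of_pos (F_pos _),
      abs_of_nonneg (hc j).1]
    exact mul_le_mul_of_nonneg_right (hc j).2 (F_pos _).le
  have h4 : ((∑ j ∈ range n, c j * F j, 0) : ℤ × ℤ) - (s0 + c i * F i, t0) ∈ L n := by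
    have : ((∑ j ∈ range n, c j * F j, 0) : ℤ × ℤ) - (s0 + c i * F i, t0) =
        ∑ j ∈ Ico (i + 1) n, c j • w n j := by
      ext
      · simp only [Prod.fst_sub, Prod.fst_sum, w, Prod.smul_mk, smul_eq_mul, s0]
        rw [← sum_range_succ (fun j => c j * F j), ← sum_range_add_sum_Ico _ (by omega : i + 1 ≤ n)]
        ring
      · simp only [Prod.snd_sub, Prod.snd_sum, w, Prod.smul_mk, smul_eq_mul, t0]
        ring
    rw [this]
    exact sum_mem fun j hj => zsmul_mem ((mem_L (mem_Ico.1 hj).2 _).2 ⟨1, 0, by simp⟩) _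
  constructor
  · intro hS
    refine ⟨s0, t0, h1, h2, h3, ?_⟩
    simpa [c, hS] using h4
  · rintro ⟨s, t, h5, h6, h7, h8⟩
    by_contra hS
    have h9 := sub_mem h8 h4
    obtain ⟨a, b, h10⟩ := (mem_L hi _).1 h9
    have e1 := congrArg Prod.fst h10
    have e2 := congrArg Prod.snd h10
    simp only [w, Prod.smul_mk, smul_eq_mul, Prod.mk_add_mk, Prod.fst_sub, Prod.snd_sub, c, hS,
      if_false] at e1 e2
    have h11 := F_ge (n - (i + 1))
    rw [show n - (i + 1) + 1 = n - i by omega] at h11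
    refine out (a := a) (b := b) (F_pos i) (F_ge i) (F_pos (n - (i + 1))) h11 h1 h2 h5 h6 h3 h7
      (by linarith) ?_
    have : t0 - t = (-1) ^ i * (a * F (n - i) - b * F (n - (i + 1))) := by
      rw [pow_succ] at e2; linarith
    rw [this, abs_mul, abs_pow, abs_neg, abs_one, one_pow, one_mul]

theorem result (d : ℕ) : ∃ (G : Type) (_ : CommGroup G) (a : Fin 4 → G) (N : Fin 4 → ℕ)
    (Y : Finset G), Y.card = d ∧ Shatters (Prog a N) Y := by
  classical
  let Q := (ℤ × ℤ) ⧸ L d
  let π : ℤ × ℤ →+ Q := QuotientAddGroup.mk' (L d)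
  let a : Fin 4 → ℤ × ℤ × Q := ![(1, 0, π (1, 0)), (1, 0, 0), (0, 1, π (0, 1)), (0, 1, 0)]
  let N : ℕ := (F d).natAbs
  have hN : (N : ℤ) = F d := Int.natAbs_of_nonneg (F_pos d).le
  let y : ℕ → Multiplicative (ℤ × ℤ × Q) := fun i => Multiplicative.ofAdd
    (2 * F d - F i, 2 * F d - 2 * F (d - i), π (F d, F d - F (d - i)))
  have hy : Function.Injective y := fun i j h => F_mono.injective (by
    have := congrArg (fun z => (Multiplicative.toAdd z).1) h
    simp only [y, toAdd_ofAdd] at this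
    linarith)
  refine ⟨Multiplicative (ℤ × ℤ × Q), inferInstance, fun i => Multiplicative.ofAdd (a i),
    fun _ => N, (range d).image y, by rw [card_image_of_injective _ hy, card_range], ?_⟩
  intro B hB
  obtain ⟨γ, hγ⟩ := key d ((range d).filter fun i => y i ∈ B)
  have main : ∀ i < d, (y i ∈ B ↔ y i ∈ (fun x => Multiplicative.ofAdd ((0, 0, π γ) : ℤ × ℤ × Q) * x) ''
      Prog (fun i => Multiplicative.ofAdd (a i)) (fun _ => N)) := by
    intro i hi
    have h0 := hγ i hi
    simp only [mem_filter, mem_range, hi, true_and] at h0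
    have hv : ∀ n : Fin 4 → ℤ, Multiplicative.ofAdd ((0, 0, π γ) : ℤ × ℤ × Q) *
        ∏ i, Multiplicative.ofAdd (a i) ^ n i =
        Multiplicative.ofAdd (n 0 + n 1, n 2 + n 3, π (γ + (n 0, n 2))) := by
      intro n
      simp only [← ofAdd_zsmul, ← ofAdd_sum, ← ofAdd_add, Fin.sum_univ_four, a]
      congr 1
      have : ((n 0, n 2) : ℤ × ℤ) = n 0 • (1, 0) + n 2 • (0, 1) := by simp
      rw [this, map_add, map_add, map_zsmul, map_zsmul]
      simp
    have hi1 := F_mono.monotone hi.le
    have hi2 := F_mono.monotone (Nat.sub_le d i)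
    have hi3 := F_pos i
    have hi4 := F_pos (d - i)
    rw [h0]
    constructor
    · rintro ⟨s, t, h1, h2, h3, h4⟩
      rw [abs_le] at h3
      refine ⟨_, (mem_prog _ _ _).2 ⟨![F d - s, F d - F i + s, F d - F (d - i) - t,
        F d - F (d - i) + t], fun j => ?_, rfl⟩, ?_⟩
      · rw [hN, abs_le]
        fin_cases j <;> simp <;> omega
      · simp only [hv, y]
        congr 1
        simp only [Matrix.cons_val_zero, Matrix.cons_val_one, Matrix.cons_val, Prod.mk.injEq]
        refine ⟨by ring, by ring, ?_⟩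
        refine QuotientAddGroup.eq_iff_sub_mem.2 ?_
        have : γ + (F d - s, F d - F (d - i) - t) - (F d, F d - F (d - i)) = γ - (s, t) := by
          ext <;> simp <;> ring
        rwa [this]
    · rintro ⟨_, h1, h2⟩
      obtain ⟨n, h3, rfl⟩ := (mem_prog _ _ _).1 h1
      simp only [hv, y, EmbeddingLike.apply_eq_iff_eq, Prod.mk.injEq] at h2
      obtain ⟨h4, h5, h6⟩ := h2
      simp only [hN, abs_le] at h3
      have := h3 0; have := h3 1; have := h3 2; have := h3 3
      refine ⟨F d - n 0, F d - F (d - i) - n 2, by omega, by omega, by rw [abs_le]; omega, ?_⟩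
      have h7 := QuotientAddGroup.eq_iff_sub_mem.1 h6
      have : γ + (n 0, n 2) - (F d, F d - F (d - i)) = γ - (F d - n 0, F d - F (d - i) - n 2) := by
        ext <;> simp <;> ring
      rwa [this] at h7
  refine ⟨Multiplicative.ofAdd (0, 0, π γ), Set.ext fun z => ⟨fun hz => ?_, fun hz => ?_⟩⟩
  · obtain ⟨i, hi, rfl⟩ := mem_image.1 (hB hz)
    exact ⟨(main i (mem_range.1 hi)).1 hz, hB hz⟩
  · obtain ⟨i, hi, rfl⟩ := mem_image.1 hz.2
    exact (main i (mem_range.1 hi)).2 hz.1

end Pool.Agent.Results.MP_19d06a_co.Unbounded
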